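import Pool.Agent.Lib_helper4.LDK.Sym
import Pool.Agent.Lib_helper59.LDS.Sta

/-!
# QS, blocks RED and ST

From the inequality for strict pairs `(A, D)` (any size) and `(A₂, D₂)` (size two) to flagged
mixtures of blocks of rank at most two, at the level of states, for a given exponent.
-/

set_option autoImplicit false
set_option linter.unusedSectionVars false

open scoped BigOperators ComplexOrder Kronecker MatrixOrder Topology
open MeasureTheory Set Matrix Filter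

namespace Pool.Agent.QS

open Pool.Agent.RC Pool.Agent.LDK
open Pool.Agent.Lib_helper98.Renyi Pool.Agent.Lib_helper59.RCT

variable {ι κ b : Type} [Fintype ι] [DecidableEq ι] [Fintype κ] [DecidableEq κ]
  [Fintype b] [DecidableEq b]

/-- the inequality for strict pairs, second system of dimension two -/
def StrictCore (p : ℝ) : Prop :=
  ∀ (ι : Type) [Fintype ι] [DecidableEq ι] (A D : Matrix ι ι ℂ), (A + D).PosDef → (A - D).PosDef →
    ∀ A₂ D₂ : Matrix (Fin 2) (Fin 2) ℂ, (A₂ + D₂).PosDef → (A₂ - D₂).PosDef →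
      G p A D * G p A₂ D₂ ≤ (2 ^ (p - 1) - 1) * G p (A ⊗ₖ A₂) (D ⊗ₖ D₂)

/-! ### from strict pairs to all pairs -/

/-- the shift `A + eps j` -/
noncomputable def sf (A : Matrix κ κ ℂ) (j : ℕ) : Matrix κ κ ℂ :=
  A + (((1 : ℝ) * eps j : ℝ) : ℂ) • (1 : Matrix κ κ ℂ)

theorem tendsto_sf (A : Matrix κ κ ℂ) : Tendsto (sf A) atTop (𝓝 A) := tendsto_sh A 1

theorem sf_add (A D : Matrix κ κ ℂ) (j : ℕ) :
    sf A j + D = (A + D) + (((1 : ℝ) * eps j : ℝ) : ℂ) • (1 : Matrix κ κ ℂ) := by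
  unfold sf; abel

theorem sf_sub (A D : Matrix κ κ ℂ) (j : ℕ) :
    sf A j - D = (A - D) + (((1 : ℝ) * eps j : ℝ) : ℂ) • (1 : Matrix κ κ ℂ) := by
  unfold sf; abel

theorem sf_add_posDef {A D : Matrix κ κ ℂ} (h : IsPsdPair A D) (j : ℕ) :
    (sf A j + D).PosDef := by
  rw [sf_add]
  exact pd_shift h.add (by have := eps_pos j; positivity)

theorem sf_sub_posDef {A D : Matrix κ κ ℂ} (h : IsPsdPair A D) (j : ℕ) :
    (sf A j - D).PosDef := by
  rw [sf_sub]
  exact pd_shift h.sub (by have := eps_pos j; positivity)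

theorem sf_pair {A D : Matrix κ κ ℂ} (h : IsPsdPair A D) (j : ℕ) : IsPsdPair (sf A j) D where
  pos := psd_shift h.pos (by have := eps_pos j; positivity)
  sub := (sf_sub_posDef h j).posSemidef
  add := (sf_add_posDef h j).posSemidef

theorem kron_swap_G (α : ℝ) (A : Matrix ι ι ℂ) (D : Matrix ι ι ℂ) (A₂ D₂ : Matrix κ κ ℂ) :
    G α (A ⊗ₖ A₂) (D ⊗ₖ D₂) = G α (A₂ ⊗ₖ A) (D₂ ⊗ₖ D) := (G_swap α A D A₂ D₂).symm

theorem StrictCore.q1le {p : ℝ} (hp : 0 < p) (hc : StrictCore p)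
    (A₂ D₂ : Matrix (Fin 2) (Fin 2) ℂ) (h₂ : IsPsdPair A₂ D₂) : Q1le p A₂ D₂ := by
  refine Q1le.lim hp (fun j => sf_pair h₂ j) h₂ (tendsto_sf A₂) tendsto_const_nhds fun j => ?_
  intro ι _ _ A D h
  have key : ∀ i, G p (sf A i) D * G p (sf A₂ j) D₂ ≤
      (2 ^ (p - 1) - 1) * G p (sf A i ⊗ₖ sf A₂ j) (D ⊗ₖ D₂) := fun i =>
    hc ι (sf A i) D (sf_add_posDef h i) (sf_sub_posDef h i) (sf A₂ j) D₂ (sf_add_posDef h₂ j)
      (sf_sub_posDef h₂ j)
  have hj := sf_pair h₂ j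
  refine le_of_tendsto_of_tendsto' ((tendsto_G_seq hp (fun i => (sf_pair h i).pos.1)
    (fun i => (sf_pair h i).herm) h.pos.1 h.herm (tendsto_sf A) tendsto_const_nhds).mul_const
      (G p (sf A₂ j) D₂)) ?_ key
  simp only [kron_swap_G p _ D _ D₂]
  exact (tendsto_G_seq hp (fun i => hk' hj.pos.1 (sf_pair h i).pos.1)
    (fun i => hk' hj.herm (sf_pair h i).herm) (hk' hj.pos.1 h.pos.1) (hk' hj.herm h.herm)
    (tendsto_kron (tendsto_sf A)) (tendsto_kron tendsto_const_nhds)).const_mul (2 ^ (p - 1) - 1)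

/-! ### reduction of the rank -/

/-- compression to a subspace containing the range -/
theorem trF_compress {f : ℝ → ℝ} (hf : f 0 = 0) {M : Matrix b b ℂ} (hM : M.PosSemidef)
    {V : Matrix b κ ℂ} (hV : V * Vᴴ * M = M) : RC.trF f M = RC.trF f (Vᴴ * M * V) := by
  obtain ⟨Y, hY⟩ := DUAL.exists_factor hM
  have h1 : V * Vᴴ * Yᴴ = Yᴴ := by
    have h2 : (V * Vᴴ * Yᴴ - Yᴴ) * (V * Vᴴ * Yᴴ - Yᴴ)ᴴ = 0 := by
      have h3 : (V * Vᴴ * Yᴴ - Yᴴ) * Y = 0 := by
        rw [Matrix.sub_mul, Matrix.mul_assoc (V * Vᴴ), ← hY, hV, sub_self]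
      rw [Matrix.conjTranspose_sub, Matrix.conjTranspose_mul, Matrix.conjTranspose_conjTranspose,
        Matrix.mul_sub, ← Matrix.mul_assoc, h3, Matrix.zero_mul, sub_zero]
    have h4 := Matrix.self_mul_conjTranspose_eq_zero.1 h2
    exact sub_eq_zero.1 h4
  have e1 : Vᴴ * M * V = (Vᴴ * Yᴴ) * (Vᴴ * Yᴴ)ᴴ := by
    rw [Matrix.conjTranspose_mul, Matrix.conjTranspose_conjTranspose,
      Matrix.conjTranspose_conjTranspose, hY]
    simp only [Matrix.mul_assoc]
  have e2 : (Vᴴ * Yᴴ)ᴴ * (Vᴴ * Yᴴ) = Y * Yᴴ := by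
    rw [Matrix.conjTranspose_mul, Matrix.conjTranspose_conjTranspose,
      Matrix.conjTranspose_conjTranspose, Matrix.mul_assoc, ← Matrix.mul_assoc V, h1]
  rw [e1, DUAL.trF_mul_conjTranspose hf, e2, DUAL.trF_mul_conjTranspose hf, hY]

/-- a positive semidefinite matrix of rank at most `k` -/
theorem exists_support {M : Matrix b b ℂ} (hM : M.PosSemidef) {k : ℕ} (hr : M.rank ≤ k) :
    ∃ V : Matrix b (Fin k) ℂ, V * Vᴴ * M = M := by
  classical
  have hcard : Fintype.card {i // hM.1.eigenvalues i ≠ 0} ≤ Fintype.card (Fin k) := by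
    rw [← hM.1.rank_eq_card_non_zero_eigs, Fintype.card_fin]
    exact hr
  obtain ⟨e⟩ := Function.Embedding.nonempty_of_card_le hcard
  set U : Matrix b b ℂ := (hM.1.eigenvectorUnitary : Matrix b b ℂ) with hUd
  set a := hM.1.eigenvalues with had
  have hspec : M = U * Matrix.diagonal (fun i => (a i : ℂ)) * Uᴴ := by
    have := hM.1.spectral_theorem
    rw [Unitary.conjStarAlgAut_apply] at this
    rw [this]
    rfl
  -- the columns of the eigenvector matrix with nonzero eigenvalue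
  let V : Matrix b (Fin k) ℂ := Matrix.of fun x j =>
    ∑ i : {i // a i ≠ 0}, if e i = j then U x i else 0
  have hVV : V * Vᴴ = U * Matrix.diagonal (fun i => if a i ≠ 0 then (1 : ℂ) else 0) * Uᴴ := by
    ext x y
    rw [Matrix.mul_apply, Matrix.mul_apply]
    simp only [Matrix.conjTranspose_apply, Matrix.mul_diagonal]
    have e1 : ∀ j, V x j * star (V y j) =
        ∑ i : {i // a i ≠ 0}, if e i = j then U x i * star (U y i) else 0 := by
      intro j
      simp only [V, Matrix.of_apply]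
      rw [star_sum, Finset.sum_mul_sum]
      refine Finset.sum_congr rfl fun i _ => ?_
      by_cases hij : e i = j
      · rw [if_pos hij, if_pos hij, Finset.sum_eq_single i]
        · rw [if_pos hij]
        · intro i' _ hi'
          have : e i' ≠ j := by
            intro h
            exact hi' (e.injective (h.trans hij.symm))
          rw [if_neg this, star_zero, mul_zero]
        · intro h; exact absurd (Finset.mem_univ _) h
      · rw [if_neg hij, if_neg hij]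
        simp
    simp only [e1]
    rw [Finset.sum_comm]
    have e2 : ∀ i : {i // a i ≠ 0}, (∑ j, if e i = j then U x i * star (U y i) else 0) =
        U x i * star (U y i) := by
      intro i
      rw [Finset.sum_ite_eq]
      simp
    simp only [e2]
    have e3 : ∀ i : b, U x i * (if a i ≠ 0 then (1 : ℂ) else 0) * star (U y i) =
        if a i ≠ 0 then U x i * star (U y i) else 0 := by
      intro i
      split_ifs <;> simp
    simp only [e3]
    rw [← Finset.sum_filter]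
    exact (Finset.sum_subtype (Finset.univ.filter fun i => a i ≠ 0) (by simp)
      (fun i => U x i * star (U y i))).symm
  refine ⟨V, ?_⟩
  have hUU : Uᴴ * U = 1 := by
    have := Matrix.mem_unitaryGroup_iff'.1 hM.1.eigenvectorUnitary.2
    exact this
  rw [hVV, hspec]
  calc U * Matrix.diagonal (fun i => if a i ≠ 0 then (1 : ℂ) else 0) * Uᴴ *
        (U * Matrix.diagonal (fun i => (a i : ℂ)) * Uᴴ)
      = U * Matrix.diagonal (fun i => if a i ≠ 0 then (1 : ℂ) else 0) * (Uᴴ * U) *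
        Matrix.diagonal (fun i => (a i : ℂ)) * Uᴴ := by simp only [Matrix.mul_assoc]
    _ = U * (Matrix.diagonal (fun i => if a i ≠ 0 then (1 : ℂ) else 0) *
        Matrix.diagonal (fun i => (a i : ℂ))) * Uᴴ := by
          rw [hUU]; simp only [Matrix.mul_one, Matrix.mul_assoc]
    _ = _ := by
          rw [Matrix.diagonal_mul_diagonal]
          congr 3
          funext i
          by_cases h : a i = 0
          · simp [h]
          · simp [h]

/-- a matrix dominated by `A` is fixed by every `Q` with `Q A = A` -/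
theorem fix_of_pair {A D Q : Matrix b b ℂ} (h : IsPsdPair A D) (hQ : Q * A = A) :
    Q * D = D := by
  obtain ⟨Y, hY⟩ := DUAL.exists_factor h.add
  obtain ⟨Z, hZ⟩ := DUAL.exists_factor h.sub
  have h1 : (Q - 1) * (Yᴴ * Y + Zᴴ * Z) * (Q - 1)ᴴ = 0 := by
    rw [← hY, ← hZ]
    have : A + D + (A - D) = (2 : ℂ) • A := by module
    rw [this, Matrix.mul_smul, Matrix.sub_mul, Matrix.one_mul, hQ, sub_self]
    simp
  have h2 : ((Q - 1) * Yᴴ) * ((Q - 1) * Yᴴ)ᴴ + ((Q - 1) * Zᴴ) * ((Q - 1) * Zᴴ)ᴴ = 0 := by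
    rw [← h1]
    simp only [Matrix.conjTranspose_mul, Matrix.conjTranspose_conjTranspose, Matrix.mul_add,
      Matrix.add_mul, Matrix.mul_assoc]
  have h3 : ((Q - 1) * Yᴴ) * ((Q - 1) * Yᴴ)ᴴ = 0 := by
    have p1 := Matrix.posSemidef_self_mul_conjTranspose ((Q - 1) * Yᴴ)
    have p2 := Matrix.posSemidef_self_mul_conjTranspose ((Q - 1) * Zᴴ)
    have h4 : ((Q - 1) * Yᴴ) * ((Q - 1) * Yᴴ)ᴴ = -(((Q - 1) * Zᴴ) * ((Q - 1) * Zᴴ)ᴴ) :=
      eq_neg_of_add_eq_zero_left h2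
    have h5 : ((Q - 1) * Yᴴ) * ((Q - 1) * Yᴴ)ᴴ ≤ 0 := by
      rw [h4, neg_nonpos, Matrix.le_iff, sub_zero]
      exact p2
    have h6 : 0 ≤ ((Q - 1) * Yᴴ) * ((Q - 1) * Yᴴ)ᴴ := by
      rw [Matrix.le_iff, sub_zero]
      exact p1
    exact le_antisymm h5 h6
  have h4 : (Q - 1) * Yᴴ = 0 := Matrix.self_mul_conjTranspose_eq_zero.1 h3
  have h5 : (Q - 1) * (A + D) = 0 := by
    rw [hY, ← Matrix.mul_assoc, h4, Matrix.zero_mul]
  have h6 : (Q - 1) * A = 0 := by rw [Matrix.sub_mul, hQ, Matrix.one_mul, sub_self]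
  have h7 : (Q - 1) * D = 0 := by
    have : (Q - 1) * (A + D) = (Q - 1) * A + (Q - 1) * D := Matrix.mul_add _ _ _
    rw [h5, h6, zero_add] at this
    exact this.symm
  rw [Matrix.sub_mul, Matrix.one_mul] at h7
  exact sub_eq_zero.1 h7

theorem pair_conj {A D : Matrix b b ℂ} (h : IsPsdPair A D) (V : Matrix b κ ℂ) :
    IsPsdPair (Vᴴ * A * V) (Vᴴ * D * V) where
  pos := h.pos.conjTranspose_mul_mul_same V
  sub := by
    have : Vᴴ * A * V - Vᴴ * D * V = Vᴴ * (A - D) * V := by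
      rw [Matrix.mul_sub, Matrix.sub_mul]
    rw [this]
    exact h.sub.conjTranspose_mul_mul_same V
  add := by
    have : Vᴴ * A * V + Vᴴ * D * V = Vᴴ * (A + D) * V := by
      rw [Matrix.mul_add, Matrix.add_mul]
    rw [this]
    exact h.add.conjTranspose_mul_mul_same V

theorem G_compress {α : ℝ} (hα : 0 < α) {A D : Matrix b b ℂ} (h : IsPsdPair A D)
    {V : Matrix b κ ℂ} (hV : V * Vᴴ * A = A) :
    G α (Vᴴ * A * V) (Vᴴ * D * V) = G α A D := by
  have hD := fix_of_pair h hV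
  have f0 : (fun x : ℝ => x ^ α) 0 = 0 := Real.zero_rpow hα.ne'
  unfold G
  have e1 : Vᴴ * A * V + Vᴴ * D * V = Vᴴ * (A + D) * V := by
    rw [Matrix.mul_add, Matrix.add_mul]
  have e2 : Vᴴ * A * V - Vᴴ * D * V = Vᴴ * (A - D) * V := by
    rw [Matrix.mul_sub, Matrix.sub_mul]
  rw [e1, e2, ← trF_compress f0 h.pos hV,
    ← trF_compress f0 h.add (by rw [Matrix.mul_add, hV, hD]),
    ← trF_compress f0 h.sub (by rw [Matrix.mul_sub, hV, hD])]

theorem q1le_of_rank {p : ℝ} (hp : 0 < p) {k : ℕ}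
    (hc : ∀ A₂ D₂ : Matrix (Fin k) (Fin k) ℂ, IsPsdPair A₂ D₂ → Q1le p A₂ D₂)
    {A D : Matrix b b ℂ} (h : IsPsdPair A D) (hr : A.rank ≤ k) : Q1le p A D := by
  obtain ⟨V, hV⟩ := exists_support h.pos hr
  intro ι _ _ A₁ D₁ h₁
  have h2 := hc _ _ (pair_conj h V) ι A₁ D₁ h₁
  rw [G_compress hp h hV] at h2
  have hk := h₁.kron h
  have e1 : A₁ ⊗ₖ (Vᴴ * A * V) = ((1 : Matrix ι ι ℂ) ⊗ₖ V)ᴴ * (A₁ ⊗ₖ A) *
      ((1 : Matrix ι ι ℂ) ⊗ₖ V) := by
    rw [Matrix.conjTranspose_kronecker, Matrix.conjTranspose_one, ← Matrix.mul_kronecker_mul,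
      ← Matrix.mul_kronecker_mul, Matrix.one_mul, Matrix.mul_one]
  have e2 : D₁ ⊗ₖ (Vᴴ * D * V) = ((1 : Matrix ι ι ℂ) ⊗ₖ V)ᴴ * (D₁ ⊗ₖ D) *
      ((1 : Matrix ι ι ℂ) ⊗ₖ V) := by
    rw [Matrix.conjTranspose_kronecker, Matrix.conjTranspose_one, ← Matrix.mul_kronecker_mul,
      ← Matrix.mul_kronecker_mul, Matrix.one_mul, Matrix.mul_one]
  rw [e1, e2, G_compress hp hk] at h2
  · exact h2
  · rw [Matrix.conjTranspose_kronecker, Matrix.conjTranspose_one, ← Matrix.mul_kronecker_mul,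
      ← Matrix.mul_kronecker_mul, Matrix.one_mul, Matrix.one_mul, hV]

/-! ### states -/

/-- upper bounds for one exponent -/
theorem le_at {σ₁ : Fin 2 → Matrix ι ι ℂ} {σ₂ : Fin 2 → Matrix κ κ ℂ}
    (h₁ : ∀ x, IsDensity (σ₁ x)) (h₂ : ∀ x, IsDensity (σ₂ x)) {α : ℝ} (h0 : 0 < α) (h1 : α ≠ 1)
    (hf : Q1le α (Aop α σ₁) (Dop α σ₁) ∨ Q1le α (Aop α σ₂) (Dop α σ₂)) :
    Hsum α σ₁ σ₂ ≤ Fval α σ₁ σ₂ := by
  have p₁ := psdPair_state h₁ h0
  have p₂ := psdPair_state h₂ h0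
  apply Hsum_le_Fval h₁ h₂ h0 h1
  rw [p₁.Gfun_eq h0, p₂.Gfun_eq h0, (p₁.kron p₂).Gfun_eq h0]
  rcases hf with hf | hf
  · have := hf κ _ _ p₂
    rwa [G_swap, mul_comm (Pool.Agent.RC.G α _ _)] at this
  · exact hf ι _ _ p₁

/-- pairs of joint rank at most `k` -/
def RkQ (k : ℕ) : MP2 := fun _ _ _ S R => (S + R).rank ≤ k

theorem rkQ_conj (k : ℕ) (S R X : Matrix b b ℂ) (_ : Xᴴ = X) (h : RkQ k b S R) :
    RkQ k b (X * S * X) (X * R * X) := by
  unfold RkQ at h ⊢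
  rw [← Matrix.add_mul, ← Matrix.mul_add]
  exact (Matrix.rank_mul_le_left _ _).trans ((Matrix.rank_mul_le_right _ _).trans h)

theorem q1le_flag_rank {p : ℝ} (hp : 0 < p) {k : ℕ}
    (hc : ∀ A₂ D₂ : Matrix (Fin k) (Fin k) ℂ, IsPsdPair A₂ D₂ → Q1le p A₂ D₂)
    {A D : Matrix b b ℂ} (h : IsPsdPair A D) (hf : FlagQ (RkQ k) (A + D) (A - D)) :
    Q1le p A D := by
  refine FlagQ.q1le hp (fun A D hp' hq => ?_) h hf
  refine q1le_of_rank hp hc hp' ?_
  unfold RkQ at hq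
  have e : A + D + (A - D) = ((2 : ℂ) • (1 : Matrix b b ℂ)) * A := by
    rw [Matrix.smul_mul, Matrix.one_mul]; module
  have e2 : A = ((1 / 2 : ℂ) • (1 : Matrix b b ℂ)) * (A + D + (A - D)) := by
    rw [e, ← Matrix.mul_assoc, Matrix.smul_mul, Matrix.one_mul, smul_smul]
    norm_num
  rw [e2]
  exact (Matrix.rank_mul_le_right _ _).trans hq

/-- flagged mixtures: orthogonal projections `P i` summing to the identity and commuting with both
states, such that each block `P i (σ 0 + σ 1)` has rank at most two -/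
def RankTwoBlocks (σ : Fin 2 → Matrix b b ℂ) : Prop :=
  ∃ (m : ℕ) (P : Fin m → Matrix b b ℂ), (∀ i, (P i).IsHermitian) ∧ (∀ i, P i * P i = P i) ∧
    ∑ i, P i = 1 ∧ (∀ i x, P i * σ x = σ x * P i) ∧ ∀ i, (P i * (σ 0 + σ 1)).rank ≤ 2

theorem flagRk_of_blocks {σ : Fin 2 → Matrix b b ℂ} (h : RankTwoBlocks σ) :
    FlagQ (RkQ 2) (σ 0) (σ 1) := by
  obtain ⟨m, P, h1, h2, h3, h4, h5⟩ := h
  refine ⟨m, P, h1, h2, h3, fun i => h4 i 0, fun i => h4 i 1, fun i => ?_⟩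
  unfold RkQ
  rw [← Matrix.mul_add]
  exact h5 i

theorem rankTwoBlocks_of_card {σ : Fin 2 → Matrix b b ℂ} (h : Fintype.card b ≤ 2) :
    RankTwoBlocks σ := by
  refine ⟨1, fun _ => 1, fun _ => Matrix.isHermitian_one, fun _ => Matrix.one_mul _, by simp,
    fun _ x => by rw [Matrix.one_mul, Matrix.mul_one], fun _ => ?_⟩
  exact (Matrix.rank_le_card_width _).trans h

/-- every exponent for which the strict core inequality holds -/
theorem state_le {σ₁ : Fin 2 → Matrix ι ι ℂ} {σ₂ : Fin 2 → Matrix κ κ ℂ}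
    (h₁ : ∀ x, IsDensity (σ₁ x)) (h₂ : ∀ x, IsDensity (σ₂ x)) {α : ℝ} (h0 : 0 < α) (h1 : α ≠ 1)
    (hc : StrictCore α) (hf : RankTwoBlocks σ₁ ∨ RankTwoBlocks σ₂) :
    Hsum α σ₁ σ₂ ≤ Fval α σ₁ σ₂ := by
  have hq := fun A₂ D₂ h₂ => hc.q1le h0 A₂ D₂ h₂
  refine le_at h₁ h₂ h0 h1 (hf.imp (fun hf => ?_) (fun hf => ?_))
  · exact q1le_flag_rank h0 hq (psdPair_state h₁ h0)
      (flagQ_state h0 (fun S R X hX h => rkQ_conj 2 S R X hX h) h₁ (flagRk_of_blocks hf))
  · exact q1le_flag_rank h0 hq (psdPair_state h₂ h0)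
      (flagQ_state h0 (fun S R X hX h => rkQ_conj 2 S R X hX h) h₂ (flagRk_of_blocks hf))

end Pool.Agent.QS
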