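import Pool.Agent.Lib_helper4.QS.Red
import Pool.Agent.Lib_helper93.LDK.CLS
import Pool.Agent.Lib_helper4.LDK.Union

/-!
# QS, final assembly: one side a flagged mixture of blocks of rank at most two, every `α > 0`
-/

set_option autoImplicit false

open scoped BigOperators ComplexOrder Kronecker MatrixOrder Topology
open MeasureTheory Set Matrix Filter

namespace Pool.Agent.QS

open Pool.Agent.RC Pool.Agent.LDK
open Pool.Agent.Lib_helper98.Renyi Pool.Agent.Lib_helper59.RCT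

variable {b b₁ b₂ : Type} [Fintype b] [DecidableEq b] [Fintype b₁] [DecidableEq b₁]
  [Fintype b₂] [DecidableEq b₂]

/-- blocks of rank at most two form a flagged pencil -/
theorem pencil_of_rankTwoBlocks {σ : Fin 2 → Matrix b b ℂ} (hσ : ∀ x, IsDensity (σ x))
    (h : RankTwoBlocks σ) : FlaggedPencil σ := by
  obtain ⟨m, P, h1, h2, h3, h4, h5⟩ := h
  refine ⟨m, P, h1, h2, h3, h4, fun i => ?_⟩
  have hr : (P i * σ 0 + P i * σ 1).rank ≤ 3 := by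
    rw [← Matrix.mul_add]
    exact (h5 i).trans (by norm_num)
  obtain ⟨s, t, hs, ht, hst, v, w, hvw⟩ :=
    CLS_exists (psd_flag (h1 i) (h2 i) (hσ 0).1 (h4 i 0)) (psd_flag (h1 i) (h2 i) (hσ 1).1 (h4 i 1)) hr
  refine ⟨s, t, hs, ht, hst, v, w, ?_⟩
  rw [← hvw, Matrix.mul_sub, Matrix.mul_smul, Matrix.mul_smul]

/-- the upper bound, `α ∈ (0,2] ∪ [3,∞)` -/
theorem qubit_le (hc : ∀ p : ℝ, 3 < p → StrictCore p)
    {σ₁ : Fin 2 → Matrix b₁ b₁ ℂ} {σ₂ : Fin 2 → Matrix b₂ b₂ ℂ}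
    (h₁ : ∀ x, IsDensity (σ₁ x)) (h₂ : ∀ x, IsDensity (σ₂ x))
    (hf : RankTwoBlocks σ₁ ∨ RankTwoBlocks σ₂) {α : ℝ}
    (hα : (0 < α ∧ α ≤ 2) ∨ 3 ≤ α) : Hsum α σ₁ σ₂ ≤ Fval α σ₁ σ₂ := by
  by_cases h4 : α ≤ 4
  · have hp : FlaggedPencil σ₁ ∨ FlaggedPencil σ₂ :=
      hf.imp (pencil_of_rankTwoBlocks h₁) (pencil_of_rankTwoBlocks h₂)
    exact mixture_le h₁ h₂ α (hp.imp mixture_of_pencil mixture_of_pencil)
      (hα.imp id fun h => ⟨h, h4⟩)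
  · push Not at h4
    exact state_le h₁ h₂ (by linarith) (by linarith) (hc α (by linarith)) hf

/-- the lower bound, `α ∈ [2,3]` -/
theorem qubit_ge {σ₁ : Fin 2 → Matrix b₁ b₁ ℂ} {σ₂ : Fin 2 → Matrix b₂ b₂ ℂ}
    (h₁ : ∀ x, IsDensity (σ₁ x)) (h₂ : ∀ x, IsDensity (σ₂ x))
    (hf : RankTwoBlocks σ₁ ∨ RankTwoBlocks σ₂) {α : ℝ} (h2 : 2 ≤ α) (h3 : α ≤ 3) :
    Fval α σ₁ σ₂ ≤ Hsum α σ₁ σ₂ := by
  have hp : FlaggedPencil σ₁ ∨ FlaggedPencil σ₂ :=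
    hf.imp (pencil_of_rankTwoBlocks h₁) (pencil_of_rankTwoBlocks h₂)
  exact mixture_ge h₁ h₂ α (hp.imp mixture_of_pencil mixture_of_pencil) h2 h3

end Pool.Agent.QS
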